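import Mathlib

/-!
# The dual problem of a graph property need not reduce to tolerant testing

The property is given by the number of edges: `Π_v` consists of the graphs on `v` vertices whose
number of edges lies in a set `W_v`. Let `N = v (v - 1) / 2` and `D_k = ⌈N / 2 ^ k⌉`. The set `W_v`
is the complement of the disjoint gaps `(4 D_k, 6 D_k - 1)`, `k ≥ 3`. The distance of a graph with
`g` edges to the graphs with `w` edges is `|g - w|`. For `δ = 2 ^ (-k) N` no graph whose number of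
edges lies in the gap `(4 D_k, 6 D_k - 1)` is `δ`-far from `Π_v`, so a graph `G` with `5 D_k - 1`
edges is `δ`-far from all the graphs which are `δ`-far from `Π_v`; but its distance to `Π_v` is
`D_k - 1 ≥ δ - 1`.
-/

set_option autoImplicit false

namespace Pool.Agent.Results.MP_cccbef_lc.EdgeCountProperty

open Finset

/-- The distance `Δ(G, H)`, the number of pairs which are edges of exactly one of `G` and `H`. -/
noncomputable def dist {v : ℕ} (G H : SimpleGraph (Fin v)) : ℕ :=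
  (symmDiff G.edgeSet H.edgeSet).ncard

/-- `F_δ(S)`, the graphs whose distance to every graph in `S` is at least `δ`. -/
def far {v : ℕ} (δ : ℝ) (S : Set (SimpleGraph (Fin v))) : Set (SimpleGraph (Fin v)) :=
  {G | ∀ H ∈ S, δ ≤ dist G H}

/-- A graph property: a family of sets of graphs closed under isomorphism. -/
def IsGraphProperty (P : (v : ℕ) → Set (SimpleGraph (Fin v))) : Prop :=
  ∀ (v : ℕ) (G H : SimpleGraph (Fin v)), G ∈ P v → Nonempty (G ≃g H) → H ∈ P v

/-- The dual problem of `P` reduces to tolerant testing: there is `ε₀ > 0` such that for every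
`ε ∈ (0, ε₀]` there are `α < 1` and `v₀` such that for `v ≥ v₀` and `δ = ε * (v choose 2)` every
graph in `F_δ(F_δ(P_v))` has distance at most `α δ` to some graph in `P_v`. -/
def DualReduces (P : (v : ℕ) → Set (SimpleGraph (Fin v))) : Prop :=
  ∃ ε₀ : ℝ, 0 < ε₀ ∧ ∀ ε : ℝ, 0 < ε → ε ≤ ε₀ → ∃ α : ℝ, α < 1 ∧ ∃ v₀ : ℕ, ∀ v : ℕ, v₀ ≤ v →
    far (ε * (v.choose 2 : ℝ)) (far (ε * (v.choose 2 : ℝ)) (P v)) ⊆
      {G | ∃ H ∈ P v, (dist G H : ℝ) ≤ α * (ε * (v.choose 2 : ℝ))}

/-- `⌈N / 2 ^ k⌉` -/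
def D (N k : ℕ) : ℕ := (N + (2 ^ k - 1)) / 2 ^ k

lemma le_D (N k : ℕ) : N ≤ 2 ^ k * D N k := by
  unfold D
  have h := Nat.div_add_mod (N + (2 ^ k - 1)) (2 ^ k)
  have h1 := Nat.mod_lt (N + (2 ^ k - 1)) (show 0 < 2 ^ k by positivity)
  omega

lemma D_le (N k : ℕ) : 2 ^ k * D N k ≤ N + (2 ^ k - 1) := Nat.mul_div_le _ _

lemma D_le_iff (N k d : ℕ) : D N k ≤ d ↔ N ≤ 2 ^ k * d := by
  have h0 : 0 < 2 ^ k := by positivity
  constructor
  · intro h
    exact (le_D N k).trans (Nat.mul_le_mul_left _ h)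
  · intro h
    have h1 := D_le N k
    by_contra hcon
    push Not at hcon
    have h2 : 2 ^ k * (d + 1) ≤ 2 ^ k * D N k := Nat.mul_le_mul_left _ hcon
    rw [Nat.mul_add, Nat.mul_one] at h2
    omega

/-- the sizes grow by a factor of almost two -/
lemma D_succ (N k j : ℕ) (h : k < j) : 2 * D N j ≤ D N k + 1 := by
  have h1 : D N j ≤ (D N k + 1) / 2 := by
    rw [D_le_iff]
    have h2 := le_D N k
    have h3 : D N k ≤ 2 * ((D N k + 1) / 2) := by omega
    calc N ≤ 2 ^ k * D N k := h2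
      _ ≤ 2 ^ k * (2 * ((D N k + 1) / 2)) := Nat.mul_le_mul_left _ h3
      _ = 2 ^ (k + 1) * ((D N k + 1) / 2) := by ring
      _ ≤ 2 ^ j * ((D N k + 1) / 2) := Nat.mul_le_mul_right _ (Nat.pow_le_pow_right (by norm_num) h)
  omega

/-- The allowed numbers of edges. -/
def W (N : ℕ) : Set ℕ := {j | ∀ k, 3 ≤ k → 2 ≤ D N k → ¬ (4 * D N k < j ∧ j + 1 < 6 * D N k)}

lemma left_mem (N k : ℕ) (hD : 2 ≤ D N k) : 4 * D N k ∈ W N := by
  rintro j hj hDj ⟨h1, h2⟩
  rcases lt_trichotomy j k with h | h | h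
  · have := D_succ N j k h
    omega
  · subst h
    omega
  · have := D_succ N k j h
    omega

lemma right_mem (N k : ℕ) (hD : 2 ≤ D N k) : 6 * D N k - 1 ∈ W N := by
  rintro j hj hDj ⟨h1, h2⟩
  rcases lt_trichotomy j k with h | h | h
  · have := D_succ N j k h
    omega
  · subst h
    omega
  · have := D_succ N k j h
    omega

/-- The graph property. -/
def Pr (v : ℕ) : Set (SimpleGraph (Fin v)) := {G | G.edgeSet.ncard ∈ W (v.choose 2)}

lemma isGraphProperty : IsGraphProperty Pr := by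
  rintro v G H hG ⟨e⟩
  have h : G.edgeSet.ncard = H.edgeSet.ncard := by
    rw [← Nat.card_coe_set_eq, ← Nat.card_coe_set_eq]
    exact Nat.card_congr e.mapEdgeSet
  show H.edgeSet.ncard ∈ W (v.choose 2)
  rw [← h]
  exact hG

lemma card_le_add {v : ℕ} (G H : SimpleGraph (Fin v)) :
    G.edgeSet.ncard ≤ H.edgeSet.ncard + dist G H := by
  have h1 : G.edgeSet ⊆ H.edgeSet ∪ symmDiff G.edgeSet H.edgeSet := by
    intro e he
    by_cases h : e ∈ H.edgeSet
    · exact Or.inl h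
    · exact Or.inr (Or.inl ⟨he, h⟩)
  exact (Set.ncard_le_ncard h1 (Set.toFinite _)).trans (Set.ncard_union_le _ _)

lemma dist_comm {v : ℕ} (G H : SimpleGraph (Fin v)) : dist G H = dist H G := by
  unfold dist
  rw [symmDiff_comm]

/-- Every number of edges is attained at the obvious distance. -/
lemma exists_graph {v : ℕ} (G : SimpleGraph (Fin v)) (w : ℕ) (hw : w ≤ v.choose 2) :
    ∃ H : SimpleGraph (Fin v), H.edgeSet.ncard = w ∧
      (dist G H + G.edgeSet.ncard = w ∨ dist G H + w = G.edgeSet.ncard) := by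
  classical
  have htop : #(⊤ : SimpleGraph (Fin v)).edgeFinset = v.choose 2 := by
    rw [SimpleGraph.card_edgeFinset_top_eq_card_choose_two, Fintype.card_fin]
  have hG : G.edgeSet.ncard = #G.edgeFinset := by
    rw [← SimpleGraph.coe_edgeFinset, Set.ncard_coe_finset]
  have hmk : ∀ E : Finset (Sym2 (Fin v)), E ⊆ (⊤ : SimpleGraph (Fin v)).edgeFinset →
      (SimpleGraph.fromEdgeSet (E : Set (Sym2 (Fin v)))).edgeSet = E := by
    intro E hE
    rw [SimpleGraph.edgeSet_fromEdgeSet, sdiff_eq_left, Set.disjoint_left]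
    intro e he hd
    have := hE he
    rw [SimpleGraph.mem_edgeFinset] at this
    exact SimpleGraph.not_isDiag_of_mem_edgeSet _ this hd
  have hGtop : G.edgeFinset ⊆ (⊤ : SimpleGraph (Fin v)).edgeFinset :=
    SimpleGraph.edgeFinset_subset_edgeFinset.2 le_top
  rcases le_total w #G.edgeFinset with h | h
  · obtain ⟨E, hE, hEc⟩ := exists_subset_card_eq h
    refine ⟨SimpleGraph.fromEdgeSet E, ?_, Or.inr ?_⟩
    · rw [hmk E (hE.trans hGtop), Set.ncard_coe_finset, hEc]
    · unfold dist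
      rw [hmk E (hE.trans hGtop), hG, ← SimpleGraph.coe_edgeFinset, ← coe_symmDiff,
        Set.ncard_coe_finset, symmDiff_of_ge (show E ≤ G.edgeFinset from hE), card_sdiff_of_subset hE,
        hEc]
      omega
  · obtain ⟨E, hE1, hE2, hEc⟩ := exists_subsuperset_card_eq hGtop h (by rw [htop]; exact hw)
    refine ⟨SimpleGraph.fromEdgeSet E, ?_, Or.inl ?_⟩
    · rw [hmk E hE2, Set.ncard_coe_finset, hEc]
    · unfold dist
      rw [hmk E hE2, hG, ← SimpleGraph.coe_edgeFinset, ← coe_symmDiff,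
        Set.ncard_coe_finset, symmDiff_of_le (show G.edgeFinset ≤ E from hE1),
        card_sdiff_of_subset hE1, hEc]
      omega

lemma delta_le_iff (N k d : ℕ) : (1 / 2 : ℝ) ^ k * N ≤ d ↔ D N k ≤ d := by
  rw [D_le_iff, one_div, inv_pow, inv_mul_le_iff₀ (by positivity)]
  exact_mod_cast Iff.rfl

lemma key {v k : ℕ} (hk : 3 ≤ k) (hD : 2 ≤ D (v.choose 2) k)
    (hN : 6 * D (v.choose 2) k ≤ v.choose 2) :
    ∃ G ∈ far ((1 / 2) ^ k * (v.choose 2 : ℝ)) (far ((1 / 2) ^ k * (v.choose 2 : ℝ)) (Pr v)),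
      ∀ H ∈ Pr v, (1 / 2) ^ k * (v.choose 2 : ℝ) - 1 ≤ dist G H := by
  set N := v.choose 2 with hNdef
  set d := D N k with hd
  obtain ⟨G, hG, -⟩ := exists_graph (⊥ : SimpleGraph (Fin v)) (5 * d - 1) (by omega)
  refine ⟨G, ?_, ?_⟩
  · intro H hH
    rw [delta_le_iff, ← hd]
    have h1 : ∀ w ∈ W N, w ≤ N → d ≤ H.edgeSet.ncard - w ∨ d ≤ w - H.edgeSet.ncard := by
      intro w hw hwN
      obtain ⟨H', hH', hdist⟩ := exists_graph H w hwN
      have h2 : H' ∈ Pr v := by
        show H'.edgeSet.ncard ∈ W (v.choose 2)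
        rw [hH', ← hNdef]
        exact hw
      have h3 := hH H' h2
      rw [delta_le_iff, ← hd] at h3
      omega
    have h4 := h1 _ (left_mem N k hD) (by omega)
    have h5 := h1 _ (right_mem N k hD) (by omega)
    have h6 := card_le_add G H
    have h7 := card_le_add H G
    rw [dist_comm H G] at h7
    omega
  · intro H hH
    have h1 : H.edgeSet.ncard ∈ W N := hH
    have h2 := h1 k hk hD
    have h6 := card_le_add G H
    have h7 := card_le_add H G
    rw [dist_comm H G] at h7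
    have h3 : d ≤ dist G H + 1 := by omega
    have h4 : (1 / 2 : ℝ) ^ k * N ≤ ((dist G H + 1 : ℕ) : ℝ) := (delta_le_iff N k _).2 h3
    push_cast at h4
    linarith

lemma tendsto_choose : Filter.Tendsto (fun v : ℕ => ((v.choose 2 : ℕ) : ℝ)) Filter.atTop
    Filter.atTop := by
  refine tendsto_natCast_atTop_atTop.comp ?_
  refine Filter.tendsto_atTop_mono (f := fun v => v - 1) ?_ ?_
  · intro v
    rcases Nat.lt_or_ge v 2 with h | h
    · have : v - 1 = 0 := by omega
      rw [this]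
      exact Nat.zero_le _
    · rw [Nat.choose_two_right, Nat.le_div_iff_mul_le (by norm_num), mul_comm]
      exact Nat.mul_le_mul_right _ h
  · exact Filter.tendsto_atTop_atTop.2 fun b => ⟨b + 1, fun a ha => by omega⟩

/-- There is a graph property whose dual problem in the dense graph model does not reduce to tolerant
testing. In fact for every `ε = 2 ^ (-k)`, `k ≥ 3`, and all large `v` the set `F_δ(F_δ(P_v))`,
`δ = ε * (v choose 2)`, contains a graph whose distance to `P_v` is at least `δ - 1`; this exceeds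
`α δ` for every `α < 1` and all large `v`. -/
theorem result : ∃ P : (v : ℕ) → Set (SimpleGraph (Fin v)), IsGraphProperty P ∧
    (∀ k : ℕ, 3 ≤ k → ∃ v₀ : ℕ, ∀ v : ℕ, v₀ ≤ v →
      ∃ G ∈ far ((1 / 2) ^ k * (v.choose 2 : ℝ)) (far ((1 / 2) ^ k * (v.choose 2 : ℝ)) (P v)),
        ∀ H ∈ P v, (1 / 2) ^ k * (v.choose 2 : ℝ) - 1 ≤ dist G H) ∧
    ¬ DualReduces P := by
  have hmain : ∀ k : ℕ, 3 ≤ k → ∃ v₀ : ℕ, ∀ v : ℕ, v₀ ≤ v →
      ∃ G ∈ far ((1 / 2) ^ k * (v.choose 2 : ℝ)) (far ((1 / 2) ^ k * (v.choose 2 : ℝ)) (Pr v)),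
        ∀ H ∈ Pr v, (1 / 2) ^ k * (v.choose 2 : ℝ) - 1 ≤ dist G H := by
    intro k hk
    obtain ⟨v₀, hv₀⟩ := Filter.eventually_atTop.1
      (tendsto_choose.eventually_ge_atTop (((2 ^ k + 24 : ℕ) : ℝ)))
    refine ⟨v₀, fun v hv => key hk ?_ ?_⟩
    · have h1 : 2 ^ k + 24 ≤ v.choose 2 := by exact_mod_cast hv₀ v hv
      by_contra hcon
      have h2 : D (v.choose 2) k ≤ 1 := by omega
      rw [D_le_iff] at h2
      omega
    · have h1 : 2 ^ k + 24 ≤ v.choose 2 := by exact_mod_cast hv₀ v hv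
      have h2 : D (v.choose 2) k ≤ D (v.choose 2) 3 := by
        rw [D_le_iff]
        refine (le_D (v.choose 2) 3).trans (Nat.mul_le_mul_right _ ?_)
        exact Nat.pow_le_pow_right (by norm_num) hk
      have h3 := D_le (v.choose 2) 3
      have h4 : 8 * D (v.choose 2) 3 ≤ v.choose 2 + 7 := by simpa using h3
      have h5 : 24 ≤ v.choose 2 := le_trans (Nat.le_add_left _ _) h1
      omega
  refine ⟨Pr, isGraphProperty, hmain, ?_⟩
  rintro ⟨ε₀, hε₀, h⟩
  obtain ⟨k₀, hk₀⟩ := exists_pow_lt_of_lt_one hε₀ (show (1 / 2 : ℝ) < 1 by norm_num)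
  set k := k₀ + 3 with hk
  have hkε : (1 / 2 : ℝ) ^ k ≤ ε₀ :=
    (pow_le_pow_of_le_one (by norm_num) (by norm_num) (by omega)).trans hk₀.le
  obtain ⟨α, hα, v₁, hv₁⟩ := h ((1 / 2) ^ k) (by positivity) hkε
  obtain ⟨v₀, hv₀⟩ := hmain k (by omega)
  obtain ⟨v₂, hv₂⟩ := Filter.eventually_atTop.1
    (tendsto_choose.eventually_gt_atTop (2 ^ k / (1 - α)))
  set v := max v₀ (max v₁ v₂) with hv
  obtain ⟨G, hG, hG'⟩ := hv₀ v (le_max_left _ _)
  obtain ⟨H, hH, hd⟩ := hv₁ v (le_trans (le_max_left _ _) (le_max_right _ _)) hG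
  have h1 := hG' H hH
  have h2 := hv₂ v (le_trans (le_max_right _ _) (le_max_right _ _))
  have hα' : 0 < 1 - α := by linarith
  rw [div_lt_iff₀ hα'] at h2
  have h3 : (1 : ℝ) < (1 - α) * ((1 / 2) ^ k * (v.choose 2 : ℝ)) := by
    have h4 : (1 / 2 : ℝ) ^ k * 2 ^ k = 1 := by rw [← mul_pow]; norm_num
    have h5 : (0 : ℝ) < (1 / 2 : ℝ) ^ k := by positivity
    calc (1 : ℝ) = (1 / 2 : ℝ) ^ k * 2 ^ k := h4.symm
      _ < (1 / 2 : ℝ) ^ k * ((v.choose 2 : ℝ) * (1 - α)) := by
        exact mul_lt_mul_of_pos_left h2 h5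
      _ = _ := by ring
  linarith

end Pool.Agent.Results.MP_cccbef_lc.EdgeCountProperty
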